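import Pool.Agent.H25.Gab2

set_option autoImplicit false

namespace Pool.Agent.Results.MP_6c6e33_an.Unbounded

open Pool.Agent.H25.Gab

theorem result (a b : ℝ) (g : L2R) (f : ℤ × ℤ → L2R) (hf : IsGabor a b g f) (hF : IsFrame f)
    (hR : ¬ IsRieszBasis f) :
    (∀ σ : ℕ ≃ ℤ × ℤ, ¬ HasBoundedRep fun k => f (σ k)) ∧
      ∀ σ : ℤ ≃ ℤ × ℤ, ¬ HasBoundedRep fun k => f (σ k) :=
  ⟨fun σ h => hR (main a b g f hf hF (Or.inl ⟨σ, h⟩)),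
    fun σ h => hR (main a b g f hf hF (Or.inr ⟨σ, h⟩))⟩

end Pool.Agent.Results.MP_6c6e33_an.Unbounded
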